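import Pool.Agent.K6.H35.EP.Main

/-!
# Values of exponential polynomials which are one-dimensional periods

Let `𝒫₁` be the space of the linear combinations, with algebraic coefficients, of the absolutely
convergent integrals `∫_σ P(x) / Q(x) dx` of the problem in dimension `n = 1` (with algebraic
coefficients also in `P`, `Q` and in the inequalities which define `σ ⊆ ℝ`), and let `F` be any space of
complex numbers of finite dimension over the field of the algebraic numbers, for instance spanned by
finitely many periods of any dimensions.

If `e` is a period then so are all the values `p(n) e ^ n + q(n)`, `n = 0, 1, 2, …`, for all polynomials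
`p ≠ 0` and `q` whose coefficients are periods (of any dimensions). We show that few of them can be in
`F 𝒫₁`: for ALL complex polynomials `p ≠ 0`, `q` of degree at most `d`, at most `C √N` of the numbers
`p(n) e ^ n + q(n)`, `n < N`, are in `F 𝒫₁`, where `C` depends only on `F` and `d`. More generally we
consider the exponential polynomials
`f(n) = P_1(n) e ^ (n α_1) + ... + P_m(n) e ^ (n α_m)`
with distinct algebraic frequencies `α_j` and arbitrary complex polynomials `P_j` of degree at most `d`, not
all those with `α_j ≠ 0` being zero (so that `f` is not a polynomial). If the `α_j` generate a group of rank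
`r`, then at most `C N ^ (r / (r + 1))` of the numbers `f(n)`, `n < N`, are in `F 𝒫₁`, and `C` depends only
on `F`, `d` and the frequencies. The same holds for the exponential polynomials whose bases are monomials in
any `r` algebraically independent numbers. (For a polynomial `f` all values can be in `𝒫₁`.)

The proof. Let `A` be the set of the `n < N` with `f(n) ∈ F 𝒫₁` and `W` the space spanned by the `f(n)`,
`n ∈ A`. Let `t_1, ..., t_r` be the exponentials of a basis of the group generated by the `α_j`; they
are algebraically independent by the theorem of Lindemann and Weierstrass.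

* Upper bound. The products of the `b ^ r` numbers `t ^ (L β)`, `0 ≤ β_i < b`, with a basis of `F` are
  linearly independent, if `L` is large (`Str`). The products `t ^ (L β) f(n)` are in a space of dimension at
  most `C' (N / b + 1) b ^ r`. By the hyperplane case of the linear subgroup theorem of Waldschmidt and Roy
  (starting files `Pool.Agent.W254.HP`), in the form of the inequality for products of spaces of
  the hand-in `ProductSpaces`, `b ^ r dim W ≤ C' (N / b + 1) b ^ r + (b ^ r dim F) ^ 2`. With `b` about
  `N ^ (1 / (r + 1))` we get `dim W ≤ C'' N ^ (r / (r + 1))`.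
* Lower bound: `|A| ≤ 2 dim W + C'''` (`Deg`, `Low`). We write the coefficients of the `P_j` in
  terms of numbers which are linearly independent over the field generated by the `t_i`. Thus we can
  suppose that the coefficients are polynomials in the `t_i`, and by a substitution `t_i = u ^ (w_i)` that they are
  polynomials in one variable `u`. Without the term with `α_j = 0` (at most `d + 1` dimensions) and apart from a bounded
  number of `n` the degree in `u` of `f(n)` is a strictly convex function of `n` (a maximum of linear functions with
  slopes different from zero), which takes every value at most twice.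
-/

set_option autoImplicit false

namespace Pool.Agent.Results.MP_2cf66e_nt.ExponentialPolynomials

open Module Polynomial Pool.Agent.HP778.KZ
open scoped Pointwise

/-- **Main result.** `periods1` is the space `𝒫₁` of the one-variable periods.

(1) Let `α_1, ..., α_m` be distinct algebraic numbers, `r` the rank of the additive group generated by
them, `F` a space of complex numbers of finite dimension over the algebraic numbers and `d` a number. There
is `C` such that for all complex polynomials `P_1, ..., P_m` of degree at most `d`, not all `P_j` with
`α_j ≠ 0` being zero, and all `N` at most `C N ^ (r / (r + 1))` of the numbers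
`∑ P_j(n) e ^ (n α_j)`, `n < N`, are in `F 𝒫₁`.

(2) The same is true if the numbers `e ^ (α_j)` are replaced by distinct monomials `∏ t_i ^ (γ_ji)` with
integral exponents in `r` algebraically independent complex numbers `t_i`. -/
theorem result :
    (∀ (m : ℕ) (α : Fin m → ℂ), (∀ j, IsAlgebraic ℚ (α j)) → Function.Injective α →
      ∀ F : Submodule (algebraicClosure ℚ ℂ) ℂ, Module.Finite (algebraicClosure ℚ ℂ) F →
      ∀ d : ℕ, ∃ C : ℝ, ∀ P : Fin m → ℂ[X], (∀ j, (P j).natDegree ≤ d) →
      (∃ j, α j ≠ 0 ∧ P j ≠ 0) → ∀ (N : ℕ) (S : Finset ℕ),
      (∀ n ∈ S, n < N ∧ ∑ j, (P j).eval (n : ℂ) * Complex.exp (n * α j) ∈ F * periods1) →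
      (S.card : ℝ) ≤ C * (N : ℝ) ^ ((finrank ℤ (Submodule.span ℤ (Set.range α)) : ℝ) /
        (finrank ℤ (Submodule.span ℤ (Set.range α)) + 1))) ∧
    (∀ (r : ℕ) (t : Fin r → ℂ), AlgebraicIndependent ℚ t →
      ∀ (m : ℕ) (γ : Fin m → Fin r → ℤ), Function.Injective γ →
      ∀ F : Submodule (algebraicClosure ℚ ℂ) ℂ, Module.Finite (algebraicClosure ℚ ℂ) F →
      ∀ d : ℕ, ∃ C : ℝ, ∀ P : Fin m → ℂ[X], (∀ j, (P j).natDegree ≤ d) →
      (∃ j, γ j ≠ 0 ∧ P j ≠ 0) → ∀ (N : ℕ) (S : Finset ℕ),
      (∀ n ∈ S, n < N ∧
        ∑ j, (P j).eval (n : ℂ) * (∏ i, t i ^ (γ j i)) ^ n ∈ F * periods1) →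
      (S.card : ℝ) ≤ C * (N : ℝ) ^ ((r : ℝ) / (r + 1))) := by
  refine ⟨?_, ?_⟩
  · intro m α hα hinj F hF d
    exact Pool.Agent.K6.H35.EP.exp_bound Pool.Agent.K6.H30.PS.hyper_periods1 F α hα hinj d
  · intro r t ht m γ hγ F hF d
    exact Pool.Agent.K6.H35.EP.real_bound Pool.Agent.K6.H30.PS.hyper_periods1
      ht.algebraicClosure F γ hγ d

end Pool.Agent.Results.MP_2cf66e_nt.ExponentialPolynomials
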