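import Pool.Agent.K6.H35.EP.Fin3

/-!
# Finitely generated groups of numbers made from `e` against one-dimensional periods

Let `𝒫₁` be the space of the linear combinations, with algebraic coefficients, of the absolutely
convergent integrals `∫_σ P(x) / Q(x) dx` of the problem in dimension `n = 1` (with algebraic
coefficients also in `P`, `Q` and in the inequalities which define `σ ⊆ ℝ`), and let `F` be any space of
complex numbers of finite dimension over the field of the algebraic numbers, for instance spanned by
finitely many periods of any dimensions.

If `e` is a period then so are all the numbers `(e - a_1) ^ n_1 ⋯ (e - a_ρ) ^ n_ρ`, `a_j` algebraic, `n_j ≥ 0`, and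
their products with a period `y`. We show that only few of them can be in `F 𝒫₁`: if the `a_j` are distinct, then for
every complex number `y ≠ 0` at most `C N ^ (ρ / 2)` of the `N ^ ρ` numbers with `0 ≤ n_j < N`, where `C` does not
depend on `y`. The same holds for the products `P_1(e) ^ n_1 ⋯ P_ρ(e) ^ n_ρ`, if the polynomials `P_j`, with
algebraic coefficients, are multiplicatively independent modulo constants. More generally we consider `r` algebraically
independent numbers `t_i`, for instance the exponentials of `r` linearly independent algebraic numbers, and for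
each `i` multiplicatively independent polynomials `P_i1, …, P_iρ`: at most `C N ^ (r ρ / 2)` of the `N ^ (r ρ)` numbers
`y ∏ P_ij(t_i) ^ (n_ij)` with `0 ≤ n_ij < N` are in `F 𝒫₁`. (Since `y` is arbitrary, the same is true for
exponents in any other box with sides `N`, also with negative exponents.)

The hand-in `ProductSpaces` of our team has the powers of algebraically independent numbers (`ρ = 1`, `P_i1 = X`, `F` the
algebraic numbers). In general the numbers `P_ij(t_i)` are algebraically dependent, and the space spanned by the
products in the box has only the dimension `O(N ^ r)`, although there are `N ^ (r ρ)` products.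

The proof. Let `A` be the set of the exponents `n` for which the product is in `F 𝒫₁` and `W` the space spanned by these
products. By the inequality for products of spaces of `ProductSpaces`, which follows from the hyperplane case of
the linear subgroup theorem of Waldschmidt and Roy (starting files `Pool.Agent.W254.HP`), the dimension of `W` is
`O(N ^ (r / 2))` (`Box`; this is a special case of the hand-in `PowersOfSpaces`). By linear algebra there are points
`b_i1, …, b_iρ` such that for each `i` the orders at these points determine the exponents in `∏_j P_ij ^ (n_ij)`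
(`Units`). For each `l` the substitution `t_i = b_il + u ^ (M ^ i)` maps `W` to a space of polynomials in `u` of at most the same
dimension, hence with at most `dim W` different orders at `u = 0`; for large `M` the order of the image of the product
determines the orders at the `b_il` for all `i`. Therefore `|A| ≤ (dim W) ^ ρ`.
-/

set_option autoImplicit false

namespace Pool.Agent.Results.MP_2cf66e_nt.MultiplicativeGroups

open Module Polynomial Pool.Agent.HP778.KZ
open scoped Pointwise

/-- **Main result.** `periods1` is the space `𝒫₁` of the one-variable periods. Let `t_1, …, t_r` be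
algebraically independent complex numbers, or the exponentials of algebraic numbers which are linearly
independent over `ℚ`, and let `F` be a space of complex numbers of finite dimension over the algebraic numbers.

(1) For `i ≤ r` let `P_i1, …, P_iρ` be polynomials with algebraic coefficients, multiplicatively independent
modulo constants. There is `C` such that for all complex numbers `y ≠ 0` and all `N ≥ 1` at most
`C N ^ (r ρ / 2)` of the numbers `y ∏ P_ij(t_i) ^ (n_ij)`, `0 ≤ n_ij < N`, are in `F 𝒫₁`.

(2) In particular, this is the case for the numbers `y ∏ (t_i - a_ij) ^ (n_ij)`, if for each `i` the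
algebraic numbers `a_i1, …, a_iρ` are distinct. -/
theorem result (r ρ : ℕ) (t : Fin r → ℂ)
    (ht : AlgebraicIndependent ℚ t ∨ ∃ α : Fin r → ℂ,
      (∀ i, IsAlgebraic ℚ (α i)) ∧ LinearIndependent ℚ α ∧ ∀ i, t i = Complex.exp (α i))
    (F : Submodule (algebraicClosure ℚ ℂ) ℂ) (hF : Module.Finite (algebraicClosure ℚ ℂ) F) :
    (∀ P : Fin r → Fin ρ → (algebraicClosure ℚ ℂ)[X],
      (∀ i, ∀ n n' : Fin ρ → ℕ, ∀ c : algebraicClosure ℚ ℂ, c ≠ 0 →
        ∏ j, P i j ^ n j = C c * ∏ j, P i j ^ n' j → n = n') →
      ∃ C₀ : ℝ, ∀ y : ℂ, y ≠ 0 → ∀ (N : ℕ) (S : Finset (Fin r → Fin ρ → ℕ)), 1 ≤ N →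
        (∀ n ∈ S, (∀ i j, n i j < N) ∧
          y * ∏ i, ∏ j, Polynomial.aeval (t i) (P i j) ^ n i j ∈ F * periods1) →
        (S.card : ℝ) ≤ C₀ * (N : ℝ) ^ ((r * ρ : ℝ) / 2)) ∧
    (∀ a : Fin r → Fin ρ → ℂ, (∀ i j, IsAlgebraic ℚ (a i j)) →
      (∀ i, Function.Injective (a i)) →
      ∃ C₀ : ℝ, ∀ y : ℂ, y ≠ 0 → ∀ (N : ℕ) (S : Finset (Fin r → Fin ρ → ℕ)), 1 ≤ N →
        (∀ n ∈ S, (∀ i j, n i j < N) ∧
          y * ∏ i, ∏ j, (t i - a i j) ^ n i j ∈ F * periods1) →
        (S.card : ℝ) ≤ C₀ * (N : ℝ) ^ ((r * ρ : ℝ) / 2)) := by
  have ht' := Pool.Agent.K6.H35.EP.algInd_of ht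
  have hcl := Pool.Agent.K6.H35.EP.isAlgClosed_QB
  refine ⟨fun P hP => ?_, fun a halg ha => ?_⟩
  · exact Pool.Agent.K6.H35.EP.units_real Pool.Agent.K6.H30.PS.hyper_periods1 ht' F P hP
  · exact Pool.Agent.K6.H35.EP.linear_real ht' F a halg ha

end Pool.Agent.Results.MP_2cf66e_nt.MultiplicativeGroups
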