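import Pool.Agent.K6.H35.EP.Grow

/-!
# Powers of arbitrary spaces of numbers and one-dimensional periods

Let `𝒫₁` be the space of the linear combinations, with algebraic coefficients, of the absolutely
convergent integrals `∫_σ P(x) / Q(x) dx` of the problem in dimension `n = 1` (with algebraic
coefficients also in `P`, `Q` and in the inequalities which define `σ ⊆ ℝ`), and let `F` and `U` be
spaces of complex numbers of finite dimension over the field of the algebraic numbers, for
instance spanned by `e`, its powers and roots, and finitely many periods of any dimensions. If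
`e` is a period, then `F 𝒫₁` and `U ^ N` (the space spanned by the products of `N` elements of `U`) consist of
periods, for all `N`. Let `r` be the transcendence degree of the algebra generated by `U`. If `1 ∈ U`, then
the dimension of `U ^ N` is at least `(⌊N / r⌋ + 1) ^ r`. We show that for ALL `U` and `F` only a small part of `U ^ N`
can be in `F 𝒫₁`:

`dim (U ^ N ∩ F 𝒫₁) ≤ C N ^ (r / 2)`,

roughly the square root of the dimension of `U ^ N`. More generally
`dim (M U ^ N ∩ F 𝒫₁) ≤ C N ^ (r / 2)` for all spaces of complex numbers `M` of dimension at most `m`, where `C`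
depends only on `U`, `F` and `m`.

The hand-in `ProductSpaces` of our team has the case `U = ⟨1, t⟩`, `M = ⟨1⟩` with a better
constant, and a bound for the number of the elements `y e ^ (n_1 α_1 + … + n_r α_r)` of `𝒫₁` in a box; new are several
variables, algebraic functions of them, arbitrary numbers and the uniformity in `M`.

The proof. By Noether normalization `U ^ N` is contained in `∑ T_(h (N + 1)) a_j`, where `T_K` is the space of the
polynomials in algebraically independent numbers `t_1, …, t_s`, `s ≤ r`, of degree less than `K` in
each variable, and `a_1, …, a_q` are generators of the algebra generated by `U` as a module over the polynomials in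
the `t_i` (`Box`). For large `L` the products of the `b ^ s` numbers `t ^ (L β)`, `0 ≤ β_i < b`, with a basis of `F` are
linearly independent (`Str`). Hence, by the inequality for products of spaces of `ProductSpaces`, which follows
from the hyperplane case of the linear subgroup theorem of Waldschmidt and Roy (starting files
`Pool.Agent.W254.HP`), the dimension `w` of `M U ^ N ∩ F 𝒫₁` satisfies
`b ^ s w ≤ q m (h (N + 1) + L b) ^ s + (b ^ s dim F) ^ 2`, and we take `b` about `√N`.
-/

set_option autoImplicit false

namespace Pool.Agent.Results.MP_2cf66e_nt.PowersOfSpaces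

open Module Pool.Agent.HP778.KZ
open scoped Pointwise

/-- **Main result.** `periods1` is the space `𝒫₁` of the one-variable periods. Let `U` be a space of complex
numbers of finite dimension over the algebraic numbers and `r` the transcendence degree of the algebra
generated by `U`.

(1) Let `F` be another space of finite dimension and `m` a number. There is `C` such that for all spaces `M` of
complex numbers of dimension at most `m` and all `N ≥ 1` the dimension of `M U ^ N ∩ F 𝒫₁` is at most
`C N ^ (r / 2)`.

(2) If `1 ∈ U`, then the dimension of `U ^ N` is at least `(⌊N / r⌋ + 1) ^ r`. -/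
theorem result (U : Submodule (algebraicClosure ℚ ℂ) ℂ)
    (hU : Module.Finite (algebraicClosure ℚ ℂ) U) (r : ℕ)
    (hr : r = Cardinal.toNat (Algebra.trdeg (algebraicClosure ℚ ℂ)
      (Algebra.adjoin (algebraicClosure ℚ ℂ) (U : Set ℂ)))) :
    (∀ F : Submodule (algebraicClosure ℚ ℂ) ℂ, Module.Finite (algebraicClosure ℚ ℂ) F →
      ∀ m : ℕ, ∃ C : ℝ, ∀ M : Submodule (algebraicClosure ℚ ℂ) ℂ,
        Module.Finite (algebraicClosure ℚ ℂ) M → finrank (algebraicClosure ℚ ℂ) M ≤ m →
        ∀ N : ℕ, 1 ≤ N →
          (finrank (algebraicClosure ℚ ℂ) ((M * U ^ N) ⊓ (F * periods1) :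
            Submodule (algebraicClosure ℚ ℂ) ℂ) : ℝ) ≤ C * (N : ℝ) ^ ((r : ℝ) / 2)) ∧
    ((1 : ℂ) ∈ U → ∀ N : ℕ,
      (N / r + 1) ^ r ≤
        finrank (algebraicClosure ℚ ℂ) (U ^ N : Submodule (algebraicClosure ℚ ℂ) ℂ)) := by
  subst hr
  refine ⟨?_, ?_⟩
  · intro F hF m
    exact Pool.Agent.K6.H35.EP.powers_real Pool.Agent.K6.H30.PS.hyper_periods1 F U m
  · intro h1 N
    exact Pool.Agent.K6.H35.EP.powers_lower U h1 N

end Pool.Agent.Results.MP_2cf66e_nt.PowersOfSpaces
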