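import Pool.Agent.K6.H30.PS.Main

/-!
# Powers and polynomials of `e` against products of periods with one-dimensional periods

Let `𝒫₁` be the space of the linear combinations, with algebraic coefficients, of the absolutely
convergent integrals `∫_σ P(x) / Q(x) dx` of the problem in dimension `n = 1` (with algebraic
coefficients also in `P`, `Q` and in the inequalities which define `σ ⊆ ℝ`), and let `F` be any space of
complex numbers of finite dimension `f` over the field of the algebraic numbers, for instance spanned by
finitely many periods of any dimensions. The space `F 𝒫₁` of the sums of products has infinite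
dimension, and consists of periods if `F` does. If `e` is a period, then so are all polynomials in `e`.
We show that only few of them can be in `F 𝒫₁`: among the polynomials in `e` of degree at most `N`, a
space of dimension `N + 1`, those in `F 𝒫₁` form a space of dimension at most `2 f √N + C_F`. The same is
true for all transcendental numbers.

For exponentials: for all complex numbers `y ≠ 0` (for instance periods of higher dimension) at most
`2 (√N + 1) ^ r` of the `N ^ r` numbers `y e ^ (n_1 α_1 + ... + n_r α_r)`, `0 ≤ n_i < N`, are in `𝒫₁`,
where `α_1, ..., α_r` are algebraic numbers, linearly independent over `ℚ`. This follows from a statement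
on all finite sets `A`, `B` of algebraic numbers: if all numbers `y e ^ α`, `α ∈ A`, are in `𝒫₁`, then
`|B| |A| ≤ |A + B| + |B| (|B| - 1)`. So the set of all algebraic `α` with `y e ^ α ∈ 𝒫₁` grows under
addition of every finite set nearly as fast as possible. (The case `|B| = 2` follows from the strong
six exponentials theorem of Roy.)

The proof. Let `B` be a space with basis `b_i`, `i ≤ n`, such that the products of its basis with a basis
`f_j` of `F` are linearly independent, and `W` a space contained in `F V`, `V` the space of linear forms
in `1` and logarithms of algebraic numbers (which contains `𝒫₁`). The relations `∑ b_i w_i = 0`,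
`w_i ∈ W`, form a space of dimension at least `n dim W - dim (B W)`. If `w_i = ∑_j f_j v_ij`, they are
linear relations between the `n f` numbers `b_i f_j` with coefficients `v_ij` in `V`, and there are at most
`n f (n f - 1)` independent ones by the hyperplane case of the linear subgroup theorem of Waldschmidt
and Roy (starting files `Pool.Agent.W254.HP`). So `n dim W ≤ dim (B W) + n f (n f - 1)`. For
polynomials in `t` one takes for `B` the space spanned by the `t ^ (L i)`, `i < n`, where `L` depends
only on `F`, and `n` about `√N / f`.
-/

set_option autoImplicit false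

namespace Pool.Agent.Results.MP_2cf66e_nt.ProductSpaces

open Module Pool.Agent.HP778.KZ Pool.Agent.K6.H30.PS
open scoped Pointwise

/-- **Main result.** `periods1` is the space `𝒫₁` of the one-variable periods.

(1) Let `t` be `e`, or any transcendental number, and `F` a space of complex numbers of finite dimension
over the algebraic numbers. There is `C` such that for all `N` the polynomials in `t` of degree at most
`N` which are in `F 𝒫₁` form a space of dimension at most `2 dim (F) √N + C`.

(2) Let `y ≠ 0` be a complex number and `α_1, ..., α_r` algebraic numbers, linearly independent over `ℚ`.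
At most `2 (√N + 1) ^ r` of the numbers `y e ^ (n_1 α_1 + ... + n_r α_r)`, `0 ≤ n_i < N`, are in `𝒫₁`.

(3) Let `y ≠ 0` be a complex number and `A`, `B` finite sets of algebraic numbers. If `y e ^ α` is in `𝒫₁`
for all `α` in `A`, then `|B| |A| ≤ |A + B| + |B| (|B| - 1)`. -/
theorem result :
    (∀ t : ℂ, (t = ((Real.exp 1 : ℝ) : ℂ) ∨ Transcendental ℚ t) →
      ∀ F : Submodule (algebraicClosure ℚ ℂ) ℂ, Module.Finite (algebraicClosure ℚ ℂ) F →
      ∃ C : ℕ, ∀ N : ℕ, (finrank (algebraicClosure ℚ ℂ)
        (Submodule.span (algebraicClosure ℚ ℂ) {z : ℂ | ∃ j ≤ N, z = t ^ j} ⊓ F * periods1 :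
          Submodule (algebraicClosure ℚ ℂ) ℂ) : ℝ) ≤
        2 * finrank (algebraicClosure ℚ ℂ) F * Real.sqrt N + C) ∧
    (∀ (y : ℂ), y ≠ 0 → ∀ (r : ℕ) (α : Fin r → ℂ), (∀ i, IsAlgebraic ℚ (α i)) →
      LinearIndependent ℚ α → ∀ (N : ℕ) (S : Finset (Fin r → ℕ)),
      (∀ n ∈ S, (∀ i, n i < N) ∧ y * Complex.exp (∑ i, (n i : ℂ) * α i) ∈ periods1) →
      (S.card : ℝ) ≤ 2 * (Real.sqrt N + 1) ^ r) ∧
    (∀ (y : ℂ), y ≠ 0 → ∀ A B : Finset ℂ, (∀ α ∈ A, IsAlgebraic ℚ α) →
      (∀ β ∈ B, IsAlgebraic ℚ β) → (∀ α ∈ A, y * Complex.exp α ∈ periods1) →
      B.card * A.card ≤ (A + B).card + B.card * (B.card - 1)) := by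
  refine ⟨?_, ?_, ?_⟩
  · intro t ht F hF
    have ht' : Transcendental ℚ t := by
      rcases ht with rfl | ht
      · exact Pool.Agent.HP778.ofReal_transcendental
          Pool.Agent.H340R2.LW.transcendental_exp_one
      · exact ht
    exact polys_inf_bound ht' F
  · intro y hy r α hα hind N S hS
    exact box_bound hy α hα hind N S (fun n hn => (hS n hn).1) (fun n hn => (hS n hn).2)
  · intro y hy A B hA hB h
    exact sumset_bound hy A B hA hB h

end Pool.Agent.Results.MP_2cf66e_nt.ProductSpaces
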